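import Pool.Agent.Helper5.MD3.H2Final

/-!
# Maeda: all factors of the Hecke polynomial have even degree in weight `2^a - 2`

`F_k` is the characteristic polynomial of `T_2` on the cusp forms of level one and weight `k`.
For `a ≥ 12` and `k = 2^a - 2`: `F_k` is squarefree, every factor of `F_k` in `ℚ[X]` has even degree,
and the Galois group contains an involution without fixed roots.
-/

namespace Pool.Agent.Results.MP_004a28_nt.EvenDegrees

open UpperHalfPlane ModularForm MatrixGroups Polynomial Pool.Agent.Helper5.MD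

open Classical in
theorem result :
    ∃ T : ∀ m : ℤ, CuspForm 𝒮ℒ (2 * m) →ₗ[ℂ] CuspForm 𝒮ℒ (2 * m),
      (∀ (m : ℤ) (f : CuspForm 𝒮ℒ (2 * m)) (n : ℕ),
        (qExpansion 1 (T m f)).coeff n = (qExpansion 1 f).coeff (2 * n) +
          2 ^ (2 * m - 1) * (if 2 ∣ n then (qExpansion 1 f).coeff (n / 2) else 0)) ∧
      ∀ a : ℕ, 12 ≤ a → ∀ m : ℤ, 2 * m = 2 ^ a - 2 →
        ∃ P : ℚ[X], P.map (algebraMap ℚ ℂ) = (T m).charpoly ∧ Squarefree P ∧
          (∀ G : ℚ[X], G ∣ P → Even G.natDegree) ∧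
          ∃ τ : P.Gal, (Gal.galActionHom P ℂ τ).cycleType =
            Multiset.replicate (P.natDegree / 2) 2 := by
  refine ⟨T2, T2_coeff, ?_⟩
  intro a ha m hm
  obtain ⟨b, rfl⟩ : ∃ b, a = b + 2 := ⟨a - 2, by omega⟩
  have hm' : m = 2 ^ (b + 1) - 1 := by
    have h1 : (2 : ℤ) ^ (b + 2) = 2 * 2 ^ (b + 1) := by ring
    rw [h1] at hm
    linarith
  subst hm'
  exact galois_N b (by omega)

end Pool.Agent.Results.MP_004a28_nt.EvenDegrees
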