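import Pool.Agent.Helper5.MD.MF.F2Roots

/-!
# The Hecke polynomial of `T_2` has a positive proportion of distinct roots

For every even weight `k` with `S_k ≠ 0` the characteristic polynomial `F_k` of `T_2` on `S_k`
(level one) has at least `k / 8000` distinct roots.
-/

namespace Pool.Agent.Results.MP_004a28_nt.LinearlyManyRoots

open UpperHalfPlane ModularForm MatrixGroups Pool.Agent.Helper5.MD

theorem result :
    ∃ T : ∀ m : ℤ, CuspForm 𝒮ℒ (2 * m) →ₗ[ℂ] CuspForm 𝒮ℒ (2 * m),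
      (∀ (m : ℤ) (f : CuspForm 𝒮ℒ (2 * m)) (n : ℕ),
        (qExpansion 1 (T m f)).coeff n = (qExpansion 1 f).coeff (2 * n) +
          2 ^ (2 * m - 1) * (if 2 ∣ n then (qExpansion 1 f).coeff (n / 2) else 0)) ∧
      ∀ m : ℕ, Nontrivial (CuspForm 𝒮ℒ (2 * (m : ℤ))) →
        ((2 * m : ℕ) : ℝ) / 8000 ≤ ((T m).charpoly.roots.toFinset.card : ℝ) :=
  ⟨T2, T2_coeff, distinct_roots⟩

end Pool.Agent.Results.MP_004a28_nt.LinearlyManyRoots
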