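import Pool.Agent.Helper5.MD2.P12Main
import Pool.Agent.Helper5.MD2.P13Alg

/-!
# Maeda: simple spectrum of `T_2` in weights `2^a` and `2^a + 2`

For every `a ≥ 12` and `k = 2^a` or `k = 2^a + 2` the Hecke polynomial `F_k` of `T_2` on `S_k`
(level one) has `d_k` distinct roots, every operator commuting with `T_2` is a polynomial in
`T_2`, and the `2`-adic slopes are `1 + 2 v_2((3n)!/n!)`, respectively `2 + 2 v_2((3n)!/n!)`,
`1 ≤ n ≤ d_k`, each with multiplicity one.
-/

namespace Pool.Agent.Results.MP_004a28_nt.PowersOfTwo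

open UpperHalfPlane ModularForm MatrixGroups Pool.Agent.Helper5.MD

theorem result :
    ∃ T : ∀ m : ℤ, CuspForm 𝒮ℒ (2 * m) →ₗ[ℂ] CuspForm 𝒮ℒ (2 * m),
      (∀ (m : ℤ) (f : CuspForm 𝒮ℒ (2 * m)) (n : ℕ),
        (qExpansion 1 (T m f)).coeff n = (qExpansion 1 f).coeff (2 * n) +
          2 ^ (2 * m - 1) * (if 2 ∣ n then (qExpansion 1 f).coeff (n / 2) else 0)) ∧
      ∀ a : ℕ, 12 ≤ a → ∀ e : ℕ, e ≤ 1 → ∀ m : ℤ, 2 * m = 2 ^ a + 2 * (e : ℤ) →
        Squarefree (T m).charpoly ∧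
        (T m).charpoly.roots.toFinset.card = Module.finrank ℂ (CuspForm 𝒮ℒ (2 * m)) ∧
        (∀ A : CuspForm 𝒮ℒ (2 * m) →ₗ[ℂ] CuspForm 𝒮ℒ (2 * m),
          A * T m = T m * A → A ∈ Algebra.adjoin ℂ {T m}) ∧
        ∀ O : ValuationSubring ℂ, O.valuation 2 < 1 →
          (T m).charpoly.roots.map O.valuation =
            (Multiset.range (Module.finrank ℂ (CuspForm 𝒮ℒ (2 * m)))).map
              (fun n => O.valuation 2 ^ (1 + e + 2 *
                (padicValNat 2 (Nat.factorial (3 * (n + 1))) -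
                  padicValNat 2 (Nat.factorial (n + 1))))) := by
  refine ⟨T2, T2_coeff, ?_⟩
  intro a ha e he m hm
  obtain ⟨b, rfl⟩ : ∃ b, a = b + 2 := ⟨a - 2, by omega⟩
  set ε : Bool := decide (e = 1) with hε
  have hm' : m = 2 * ((2 ^ b : ℕ) : ℤ) + (if ε then 1 else 0) := by
    have h1 : (2 : ℤ) ^ (b + 2) = 4 * 2 ^ b := by ring
    rw [h1] at hm
    push_cast
    rcases (show e = 0 ∨ e = 1 by omega) with rfl | rfl <;> simp [hε] at * <;> linarith
  have he' : (if ε then 1 else 0 : ℕ) = e := by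
    rcases (show e = 0 ∨ e = 1 by omega) with rfl | rfl <;> simp [hε]
  subst hm'
  have hnd := nodup_pow ε b (by omega)
  have := finiteDimensional_cuspForm (2 * (2 * ((2 ^ b : ℕ) : ℤ) + (if ε then 1 else 0)))
  have hmon : (T2 (2 * ((2 ^ b : ℕ) : ℤ) + (if ε then 1 else 0))).charpoly.Monic :=
    LinearMap.charpoly_monic _
  refine ⟨?_, ?_, ?_, ?_⟩
  · exact ((Polynomial.nodup_roots_iff_of_splits hmon.ne_zero (IsAlgClosed.splits _)).1
      hnd).squarefree
  · rw [Multiset.toFinset_card_of_nodup hnd,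
      ← (Polynomial.splits_iff_card_roots.1 (IsAlgClosed.splits _)).symm,
      LinearMap.charpoly_natDegree]
  · intro A hA
    exact mem_adjoin_of_commute _ A hnd hA
  · intro O hO
    rw [roots_pow ε b (by omega) O.valuation hO, finrank_pow ε b (by omega), he']
    apply Multiset.map_congr rfl
    intro n _
    rw [map_pow]
    rfl

end Pool.Agent.Results.MP_004a28_nt.PowersOfTwo
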