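import Pool.Agent.Helper5.MD3.H2Final

/-!
# Maeda: the Galois group contains a transposition in weights `3 * 2^a - 4` and `3 * 2^a + 6`

`F_k` is the characteristic polynomial of `T_2` on the cusp forms of level one and weight `k`.
For `a ≥ 12` and `k = 3 * 2^a - 4` or `k = 3 * 2^a + 6`: `F_k` is squarefree and its Galois group
contains a transposition.
-/

namespace Pool.Agent.Results.MP_004a28_nt.Transposition

open UpperHalfPlane ModularForm MatrixGroups Polynomial Pool.Agent.Helper5.MD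

open Classical in
theorem result :
    ∃ T : ∀ m : ℤ, CuspForm 𝒮ℒ (2 * m) →ₗ[ℂ] CuspForm 𝒮ℒ (2 * m),
      (∀ (m : ℤ) (f : CuspForm 𝒮ℒ (2 * m)) (n : ℕ),
        (qExpansion 1 (T m f)).coeff n = (qExpansion 1 f).coeff (2 * n) +
          2 ^ (2 * m - 1) * (if 2 ∣ n then (qExpansion 1 f).coeff (n / 2) else 0)) ∧
      ∀ a : ℕ, 12 ≤ a → ∀ m : ℤ, (2 * m = 3 * 2 ^ a - 4 ∨ 2 * m = 3 * 2 ^ a + 6) →
        ∃ P : ℚ[X], P.map (algebraMap ℚ ℂ) = (T m).charpoly ∧ Squarefree P ∧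
          ∃ τ : P.Gal, (Gal.galActionHom P ℂ τ).IsSwap := by
  refine ⟨T2, T2_coeff, ?_⟩
  intro a ha m hm
  obtain ⟨b, rfl⟩ : ∃ b, a = b + 2 := ⟨a - 2, by omega⟩
  have h1 : (3 : ℤ) * 2 ^ (b + 2) = 2 * (3 * 2 ^ (b + 1)) := by ring
  rw [h1] at hm
  rcases hm with hm | hm
  · have hm' : m = 3 * 2 ^ (b + 1) - 2 := by linarith
    subst hm'
    exact galois_Tm b (by omega)
  · have hm' : m = 3 * 2 ^ (b + 1) + 3 := by linarith
    subst hm'
    exact galois_Tp b (by omega)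

end Pool.Agent.Results.MP_004a28_nt.Transposition
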